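import Mathlib
import Pool.Agent.R102.PC.Defs
import Pool.Agent.R102.PC.Count

set_option autoImplicit false

/-!
# Covering complete geometric graphs by noncrossing paths needs more than `n / 2` paths

For every `m` there is a set `A` of `n = 7 m` points of the plane in general position such that the
edges of the complete geometric graph on `A` cannot be covered by fewer than `(18/35) n`
noncrossing paths.

Seven clusters of `m` points each are placed at the points `(867,591)`, `(361,470)`, `(931,275)`,
`(675,561)`, `(623,980)`, `(746,5)`, `(392,802)`. The pairs of clusters get weights of total `36`;
by a finite certificate (potentials of small vertex covers) the edges of a noncrossing path have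
total weight at most `10 m`, whereas all the edges of the complete geometric graph have total weight
`36 m²`. The configuration and the certificate were found by helper886.
-/

namespace Pool.Agent.Results.MP_2ace6b_co.SevenClusters

open Pool.Agent.R102.PC

/-- There is a constant `c > 1/2`, namely `c = 18/35`, such that for every `m` some set `A` of
`n = 7 m` points in general position satisfies `p(A) ≥ c n`. -/
theorem result : ∃ c : ℝ, c = 18 / 35 ∧ 1 / 2 < c ∧
    ∀ m : ℕ, ∃ A : Finset (ℝ × ℝ), A.card = 7 * m ∧ GeneralPosition A ∧
      c * (A.card : ℝ) ≤ (pathCoverNumber A : ℝ) :=
  ⟨18 / 35, rfl, by norm_num, main⟩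

end Pool.Agent.Results.MP_2ace6b_co.SevenClusters
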